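import Pool.Agent.N929.EG.SeqH
import Pool.Agent.N929.EG.PtP
import Pool.Agent.R399.CP.Lat

/-!
The probability that two independent self-avoiding walks with `n` and `m` steps on the square, the
triangular or the honeycomb lattice do not intersect: regularity to all orders in both lengths.
-/

set_option autoImplicit false

namespace Pool.Agent.Results.MP_8c6f77_pr.AllOrders

open Filter Topology

/-- The three lattices. -/
inductive Lattice : Type
  | square : Lattice
  | triangular : Lattice
  | hexagonal : Lattice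

/-- Adjacency in integer coordinates: the triangular lattice has the six steps `±(1,0)`, `±(0,1)`,
`±(1,-1)`; the hexagonal lattice is drawn as a brick wall. -/
def Adj : Lattice → ℤ × ℤ → ℤ × ℤ → Prop
  | .square, p, q => |p.1 - q.1| + |p.2 - q.2| = 1
  | .triangular, p, q =>
      q - p ∈ ({(1, 0), (-1, 0), (0, 1), (0, -1), (1, -1), (-1, 1)} : Finset (ℤ × ℤ))
  | .hexagonal, p, q => q - p = (1, 0) ∨ q - p = (-1, 0) ∨
      (q - p = (0, 1) ∧ Even (p.1 + p.2)) ∨ (q - p = (0, -1) ∧ Even (q.1 + q.2))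

/-- `1` for the triangular lattice, `2` for the two bipartite lattices -/
def stp : Lattice → ℕ
  | .square => 2
  | .triangular => 1
  | .hexagonal => 2

/-- The `n`-step self-avoiding walks from the origin. -/
def walks (L : Lattice) (n : ℕ) : Set (Fin (n + 1) → ℤ × ℤ) :=
  {ω | ω 0 = 0 ∧ Function.Injective ω ∧ ∀ i : Fin n, Adj L (ω i.castSucc) (ω i.succ)}

/-- the probability that two independent uniform self-avoiding walks from the origin, with `n` and
`m` steps, meet at the origin only: it is `a (n + m) / (a n * a m)` (the lattices are transitive) -/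
noncomputable def P (L : Lattice) (n m : ℕ) : ℝ :=
  ((walks L (n + m)).ncard : ℝ) / ((walks L n).ncard * (walks L m).ncard)

/-- the difference of order `r` of the sequence `f`, with step `s`, at `n` (up to the sign
`(-1)^r`) -/
noncomputable def diff (s r : ℕ) (f : ℕ → ℝ) (n : ℕ) : ℝ :=
  ∑ i ∈ Finset.range (r + 1), (-1 : ℝ) ^ i * (r.choose i : ℝ) * f (n + s * i)

/-- the rate -/
noncomputable def rate (n : ℕ) : ℝ := Real.log n / √n

/-! ### transfer from the library -/

open TH966.AK Pool.Agent.R965.HP Pool.Agent.N929.EG Pool.Agent.N929.EG.Seq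

/-- the statement for one lattice -/
def Regular (L : Lattice) : Prop :=
  (∀ r q : ℕ, 1 ≤ r → 1 ≤ q → ∃ B : ℝ, ∀ n m : ℕ, 3 ≤ n + m →
    |diff (stp L) r (fun a => diff (stp L) q (fun b => Real.log (P L a b)) m) n| ≤
      B * rate (n + m) ^ (r + q)) ∧
  (∀ r : ℕ, 1 ≤ r → ∃ B : ℝ, ∀ n m : ℕ, 3 ≤ n →
    |diff (stp L) r (fun a => Real.log (P L a m)) n| ≤ B * rate n ^ r ∧
    (stp L ∣ m → |diff (stp L) r (fun a => Real.log (P L a m)) n| ≤ B * m * rate n ^ (r + 1))) ∧
  ∀ r : ℕ, 1 ≤ r → ∃ B : ℝ, ∀ n : ℕ, 3 ≤ n →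
    |diff (stp L) r (fun a => Real.log (P L a a)) n| ≤ B * rate n ^ r

theorem stp_pos (L : Lattice) : 1 ≤ stp L := by
  cases L <;> decide

theorem regular_of (L : Lattice) {u : ℕ → ℝ} (hc : ∀ n, 0 < ((walks L n).ncard : ℝ)) {μ : ℝ}
    (hμ : 0 < μ) (hu : ∀ n, u n = Real.log (((walks L n).ncard : ℝ) / μ ^ n))
    (H : RegH (stp L) u ρ2) : Regular L := by
  have hm : ∀ n N : ℕ, 3 ≤ n → n ≤ N → ρ2 N ≤ 3 * ρ2 n := fun n N hn h => ρ2_mono hn h
  have hP : ∀ n m, Real.log (P L n m) = u (n + m) - u n - u m := by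
    intro n m
    have h1 := hc n
    have h2 := hc m
    have h3 := hc (n + m)
    unfold P
    rw [hu, hu, hu, Real.log_div h3.ne' (by positivity), Real.log_mul h1.ne' h2.ne',
      Real.log_div h3.ne' (by positivity), Real.log_div h1.ne' (by positivity),
      Real.log_div h2.ne' (by positivity), pow_add, Real.log_mul (by positivity) (by positivity)]
    ring
  have hD : ∀ (r : ℕ) (f : ℕ → ℝ) (n : ℕ), diff (stp L) r f n = D (stp L) r f n :=
    fun r f n => rfl
  refine ⟨fun r q hr hq => ?_, fun r hr => ?_, fun r hr => ?_⟩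
  · obtain ⟨B, hB0, hB⟩ := H (r + q) (by omega)
    refine ⟨B, fun n m hnm => ?_⟩
    simp only [hP, hD]
    rw [D_mixed hr hq]
    exact hB (n + m) hnm
  · obtain ⟨B, -, hB⟩ := H.first (stp_pos L) ρ2_nonneg ρ2_nonneg (by norm_num) hm r hr
    refine ⟨B, fun n m hn => ?_⟩
    simp only [hP, hD]
    exact hB n m hn
  · obtain ⟨B, -, hB⟩ := H.diag ρ2_nonneg ρ2_nonneg (by norm_num) hm r hr
    refine ⟨B, fun n hn => ?_⟩
    simp only [hP, hD]
    exact hB n hn

theorem rate_two (n : ℕ) : Real.sqrt (Real.log n ^ 2 / n) = ρ2 n := by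
  rw [Real.sqrt_div' _ (Nat.cast_nonneg n), Real.sqrt_sq (Real.log_natCast_nonneg n)]
  rfl

theorem all_of (L : Lattice) {A : ℤ × ℤ → ℤ × ℤ → Prop} (e : Adj L = A) (Z : Rule A)
    (hs : Z.s = stp L) {μ K : ℝ} (hμ : 0 < μ)
    (G : Pool.Agent.R965.HP.Gr (ruleD Z (fun _ => True)).sys μ K 2) : Regular L := by
  subst e
  have e2 : AD (Adj L) (fun _ => True) = Adj L := by
    funext p q
    unfold AD
    simp
  have hz : (ruleD Z (fun _ => True)).s = stp L := hs
  have hw : ∀ n, walks L n = wks (AD (Adj L) (fun _ => True)) n := fun n => by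
    rw [e2]
    rfl
  have hc : ∀ n, ((walks L n).ncard : ℝ) = ((Kw (AD (Adj L) (fun _ => True)) n).card : ℝ) :=
    fun n => by
      rw [hw, card_wks (ruleD Z (fun _ => True))]
  have hcp : ∀ n, (0 : ℝ) < ((Kw (AD (Adj L) (fun _ => True)) n).card : ℝ) := fun n => G.pos n
  refine regular_of L (fun n => by rw [hc]; exact hcp n) hμ
    (u := fun n => Real.log (((walks L n).ncard : ℝ) / μ ^ n)) (fun _ => rfl) (fun r hr => ?_)
  obtain ⟨C, hC, h⟩ := dom_count G one_le_two r hr
  rw [hz] at h
  refine ⟨C, hC.le, fun n hn => ?_⟩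
  have h1 := h n (by omega)
  rw [rate_two] at h1
  unfold D
  simp only [hc]
  exact h1

/-- **Theorem.** Let `P n m` be the probability that two independent uniform self-avoiding walks from
the origin, with `n` and `m` steps, on the square, the triangular or the hexagonal lattice meet at the
origin only, and let `s = 2`, `1` and `2`. For all `r, q ≥ 1`, with constants `B` which depend on `r`
and `q`: (1) the difference of order `r` in `n` and of order `q` in `m` of `log P n m` is at most
`B (log (n+m) / √(n+m))^(r+q)`; (2) the difference of order `r` in `n` of `log P n m` is at most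
`B (log n / √n)^r`, and at most `B m (log n / √n)^(r+1)` if `s` divides `m`; (3) the difference of
order `r` of the sequence `log P n n` is at most `B (log n / √n)^r`. All differences have
step `s`. -/
theorem result : ∀ L : Lattice,
    (∀ r q : ℕ, 1 ≤ r → 1 ≤ q → ∃ B : ℝ, ∀ n m : ℕ, 3 ≤ n + m →
      |diff (stp L) r (fun a => diff (stp L) q (fun b => Real.log (P L a b)) m) n| ≤
        B * rate (n + m) ^ (r + q)) ∧
    (∀ r : ℕ, 1 ≤ r → ∃ B : ℝ, ∀ n m : ℕ, 3 ≤ n →
      |diff (stp L) r (fun a => Real.log (P L a m)) n| ≤ B * rate n ^ r ∧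
      (stp L ∣ m →
        |diff (stp L) r (fun a => Real.log (P L a m)) n| ≤ B * m * rate n ^ (r + 1))) ∧
    ∀ r : ℕ, 1 ≤ r → ∃ B : ℝ, ∀ n : ℕ, 3 ≤ n →
      |diff (stp L) r (fun a => Real.log (P L a a)) n| ≤ B * rate n ^ r := by
  intro L
  cases L with
  | square =>
    obtain ⟨K, G⟩ := full_gr H982P.sqL Pool.Agent.R965.HP.Sq.rule (show 1 ≤ 2 by norm_num)
      H982P.coord_sq sq_poor
    exact all_of .square rfl Pool.Agent.R965.HP.Sq.rule rfl (by linarith [G.hμ]) G
  | triangular =>
    obtain ⟨φ, R, htri, -⟩ := coord_triA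
    obtain ⟨K, G⟩ := full_gr H982P.triL TH966.AK.Tri.rule (show 1 ≤ 1 by norm_num) htri tri_poor
    have e : Adj .triangular = TH966.AK.Tri.A := rfl
    exact all_of .triangular e TH966.AK.Tri.rule rfl (by linarith [G.hμ]) G
  | hexagonal =>
    obtain ⟨K, G⟩ := full_gr H982P.hexL TH966.AK.Hex.rule (show 1 ≤ 2 by norm_num)
      H982P.coord_hex hex_poor
    exact all_of .hexagonal rfl TH966.AK.Hex.rule rfl (by linarith [G.hμ]) G

end Pool.Agent.Results.MP_8c6f77_pr.AllOrders
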