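import Pool.Agent.N929.EX.All
import Pool.Agent.N340.EY.CT

/-!
Planar self-avoiding walk: contacts between two given times, and the mean number of contacts with
a given time difference.
-/

set_option autoImplicit false

namespace Pool.Agent.Results.MP_8c6f77_pr.BulkContacts

/-- `ω` is an `n`-step self-avoiding walk on `ℤ²` started at the origin. -/
def IsSAW (n : ℕ) (ω : Fin (n + 1) → ℤ × ℤ) : Prop :=
  ω 0 = (0, 0) ∧
  (∀ i : Fin n, |(ω i.succ).1 - (ω i.castSucc).1| + |(ω i.succ).2 - (ω i.castSucc).2| = 1) ∧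
  Function.Injective ω

/-- Probability of the event `E` for the uniform `n`-step self-avoiding walk. -/
noncomputable def prob (n : ℕ) (E : (Fin (n + 1) → ℤ × ℤ) → Prop) : ℝ :=
  ({ω | IsSAW n ω ∧ E ω}.ncard : ℝ) / ({ω | IsSAW n ω}.ncard : ℝ)

/-- The position of the walk at the time `t` (used only for `t ≤ n`). -/
def pos {n : ℕ} (ω : Fin (n + 1) → ℤ × ℤ) (t : ℕ) : ℤ × ℤ := ω (Fin.ofNat (n + 1) t)

/-- The walk has a contact at the times `i` and `j`: it is at neighbouring sites. -/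
def Contact {n : ℕ} (ω : Fin (n + 1) → ℤ × ℤ) (i j : ℕ) : Prop :=
  |(pos ω j).1 - (pos ω i).1| + |(pos ω j).2 - (pos ω i).2| = 1

open Pool.Agent.H976R2 in
theorem pos_pth {n t : ℕ} (w : List Dir) (h : t ≤ n) : pos (pth n w) t = Lip.PP w t := by
  have e : ((Fin.ofNat (n + 1) t : Fin (n + 1)) : ℕ) = t := by
    simp [Nat.mod_eq_of_lt (show t < n + 1 by omega)]
  unfold pos pth Lip.PP
  rw [e]

open Pool.Agent.H976R2 in
open scoped Classical in
theorem prob_contact (n i j : ℕ) (hi : i ≤ n) (hj : j ≤ n) :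
    prob n (fun ω => Contact ω i j) = (((SW n).filter
      (fun w => Pool.Agent.N929.EY.Ct i j w)).card : ℝ) / ((SW n).card : ℝ) := by
  unfold prob
  have h1 : {ω | IsSAW n ω} = {ω | Pool.Agent.H976R2.IsSAW n ω} := rfl
  have h2 : {ω | IsSAW n ω ∧ Contact ω i j} =
    {ω | Pool.Agent.H976R2.IsSAW n ω ∧ Contact ω i j} := rfl
  rw [h1, h2, ncard_saw, ncard_saw_filter]
  have h3 : (SW n).filter (fun w => Contact (pth n w) i j) =
      (SW n).filter (fun w => Pool.Agent.N929.EY.Ct i j w) := by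
    refine Finset.filter_congr (fun w _ => ?_)
    unfold Contact Pool.Agent.N929.EY.Ct
    rw [pos_pth w hi, pos_pth w hj]
  rw [h3]

/-- **Theorem.** There is `C` such that for the uniform `n`-step self-avoiding walk on `ℤ²`,
`n ≥ 2`:
(1) if `m ≥ C (log n)²` and the times `i`, `i + m` have distance at least `l ≥ m` from `0` and
`n`, then `P(ω(i), ω(i + m) are neighbours) ≤ C (log n)² / (√m min(m, √l))`; for `l ≥ m²` the
bound is `C (log n)² m^(-3/2)`;
(2) if `C (log n)² ≤ m ≤ n / 2`, then the mean number of the times `i` with `ω(i)`, `ω(i + m)`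
neighbours is at most `C (log n)² (1 + n m^(-3/2))`. -/
theorem result : ∃ C : ℝ, 0 < C ∧ ∀ n : ℕ, 2 ≤ n →
    (∀ i m l : ℕ, C * Real.log n ^ 2 ≤ (m : ℝ) → m ≤ l → l ≤ i → i + m + l ≤ n →
      prob n (fun ω => Contact ω i (i + m)) ≤
        C * Real.log n ^ 2 / (Real.sqrt m * min (m : ℝ) (Real.sqrt l))) ∧
    (∀ m : ℕ, C * Real.log n ^ 2 ≤ (m : ℝ) → 2 * m ≤ n →
      ∑ i ∈ Finset.range (n - m + 1), prob n (fun ω => Contact ω i (i + m)) ≤
        C * Real.log n ^ 2 * (1 + n / (m * Real.sqrt m))) := by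
  classical
  obtain ⟨A1, C1, hA1, hC1, h1⟩ := Pool.Agent.N340.EY.ct Pool.Agent.N929.EX.s_main
    Pool.Agent.N929.EX.s_con
  obtain ⟨A2, C2, hA2, hC2, h2⟩ := Pool.Agent.N340.EY.ca Pool.Agent.N929.EX.s_main
    Pool.Agent.N929.EX.s_con
  obtain ⟨C, hC⟩ : ∃ C : ℝ, C = A1 + C1 + A2 + C2 := ⟨_, rfl⟩
  have hCp : 0 < C := by rw [hC]; positivity
  refine ⟨C, hCp, fun n hn => ?_⟩
  have hn' : (2 : ℝ) ≤ n := by exact_mod_cast hn
  have hl : 0 < Real.log n ^ 2 := by
    have : 0 < Real.log n := Real.log_pos (by linarith)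
    positivity
  have hCl : 0 < C * Real.log n ^ 2 := mul_pos hCp hl
  have hA1l : A1 * Real.log n ^ 2 ≤ C * Real.log n ^ 2 := by
    rw [hC]; gcongr; linarith
  have hA2l : A2 * Real.log n ^ 2 ≤ C * Real.log n ^ 2 := by
    rw [hC]; gcongr; linarith
  have hc0 : (0 : ℝ) < ((Pool.Agent.H976R2.SW n).card : ℝ) := by
    exact_mod_cast Finset.card_pos.mpr (Pool.Agent.H976R2.SW_nonempty n)
  refine ⟨fun i m l hm hml hli hil => ?_, fun m hm hmn => ?_⟩
  · have key := h1 n i m l hn (hA1l.trans hm) hml hli hil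
    have hmp : (0 : ℝ) < m := by linarith
    have hlp : (0 : ℝ) < l := by
      have : (m : ℝ) ≤ l := by exact_mod_cast hml
      linarith
    rw [prob_contact n i (i + m) (by omega) (by omega)]
    have hs : 0 < Real.sqrt m * min (m : ℝ) (Real.sqrt l) := by
      have : 0 < min (m : ℝ) (Real.sqrt l) := lt_min hmp (Real.sqrt_pos.mpr hlp)
      positivity
    rw [div_le_div_iff₀ hc0 hs]
    calc _ = Real.sqrt m * min (m : ℝ) (Real.sqrt l) * _ := mul_comm _ _
      _ ≤ C1 * Real.log n ^ 2 * ((Pool.Agent.H976R2.SW n).card : ℝ) := key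
      _ ≤ C * Real.log n ^ 2 * ((Pool.Agent.H976R2.SW n).card : ℝ) := by
          gcongr
          rw [hC]; linarith
  · have key := h2 n m hn (hA2l.trans hm) hmn
    have e : ∑ i ∈ Finset.range (n - m + 1), prob n (fun ω => Contact ω i (i + m)) =
        (∑ i ∈ Finset.range (n - m + 1), (((Pool.Agent.H976R2.SW n).filter
          (fun w => Pool.Agent.N929.EY.Ct i (i + m) w)).card : ℝ)) /
          ((Pool.Agent.H976R2.SW n).card : ℝ) := by
      rw [Finset.sum_div]
      refine Finset.sum_congr rfl (fun i hi => ?_)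
      rw [Finset.mem_range] at hi
      exact prob_contact n i (i + m) (by omega) (by omega)
    rw [e, div_le_iff₀ hc0]
    refine key.trans ?_
    gcongr
    rw [hC]; linarith

end Pool.Agent.Results.MP_8c6f77_pr.BulkContacts
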