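import Pool.Agent.N941.NW.Pen

/-!
Networks of self-avoiding walks on the square lattice (stars with three and four arms, theta graphs,
meshes, ...): independent self-avoiding walks form a network of any given type and any given shape
with quasi-polynomial probability.
-/

set_option autoImplicit false

namespace Pool.Agent.Results.MP_8c6f77_pr.Networks

/-- `ω` is an `n`-step self-avoiding walk on `ℤ²` started at the origin. -/
def IsSAW (n : ℕ) (ω : Fin (n + 1) → ℤ × ℤ) : Prop :=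
  ω 0 = (0, 0) ∧
  (∀ i : Fin n, |(ω i.succ).1 - (ω i.castSucc).1| + |(ω i.succ).2 - (ω i.castSucc).2| = 1) ∧
  Function.Injective ω

/-- Euclidean norm of a lattice point -/
noncomputable def len (x : ℤ × ℤ) : ℝ := Real.sqrt ((x.1 : ℝ) ^ 2 + (x.2 : ℝ) ^ 2)

/-- the diameter `max_{i,j} |ω(i) - ω(j)|` -/
noncomputable def diam (n : ℕ) (ω : Fin (n + 1) → ℤ × ℤ) : ℝ :=
  ⨆ p : Fin (n + 1) × Fin (n + 1), len (ω p.1 - ω p.2)

/-- the mean diameter of the `n`-step self-avoiding walks -/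
noncomputable def meanDiam (n : ℕ) : ℝ :=
  (∑ᶠ ω ∈ {ω | IsSAW n ω}, diam n ω) / ({ω | IsSAW n ω}.ncard : ℝ)

/-- The probability of the event `A` for independent uniform self-avoiding walks `ω e` (`e : E`),
where `ω e` has `N e` steps. -/
noncomputable def prob {E : Type} [Fintype E] (N : E → ℕ)
    (A : (∀ e, Fin (N e + 1) → ℤ × ℤ) → Prop) : ℝ :=
  ({ω : ∀ e, Fin (N e + 1) → ℤ × ℤ | (∀ e, IsSAW (N e) (ω e)) ∧ A ω}.ncard : ℝ) /
    ∏ e, ({w | IsSAW (N e) w}.ncard : ℝ)

/-- `V` and `E` are the vertices and edges of a multigraph, `e` joins `src e` to `tgt e`. The walks `ω e`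
(with `n e` steps), translated by `x (src e)`, form a network of this type with the vertex `v` placed at
the lattice point `x v`. -/
structure Network {V E : Type} (src tgt : E → V) (n : E → ℕ) (x : V → ℤ × ℤ)
    (ω : ∀ e, Fin (n e + 1) → ℤ × ℤ) : Prop where
  /-- the vertices are at different points -/
  vertices : Function.Injective x
  /-- the walk `e` leads from `x (src e)` to `x (tgt e)` -/
  ends : ∀ e, x (tgt e) = x (src e) + ω e (Fin.last (n e))
  /-- different walks meet only at their ends -/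
  meet : ∀ e e' i j, e ≠ e' → x (src e) + ω e i = x (src e') + ω e' j →
    (i = 0 ∨ i = Fin.last (n e)) ∧ (j = 0 ∨ j = Fin.last (n e'))
  /-- different walks have no common lattice edge -/
  edges : ∀ e e' (i : Fin (n e)) (j : Fin (n e')), e ≠ e' →
    s(x (src e) + ω e i.castSucc, x (src e) + ω e i.succ) ≠
      s(x (src e') + ω e' j.castSucc, x (src e') + ω e' j.succ)

/-- `e` is the only edge at the vertex `tgt e` -/
def Pendant {V E : Type} (src tgt : E → V) (e : E) : Prop :=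
  ∀ e', src e' ≠ tgt e ∧ (tgt e' = tgt e → e' = e)

/-- `N` steps are at least `n` steps and have the parity of `l` -/
def Full (n l N : ℕ) : Prop := n ≤ N ∧ N % 2 = l % 2

/-- the walk `ω` follows the walk `P` enlarged by the factor `Y`: `ω k` is at `ℓ¹`-distance at most
`2 Y` from `Y P (σ k)`, where `σ` starts at `0` and increases by `0` or `1` in each step -/
def Follows {n l : ℕ} (Y : ℤ) (P : Fin (l + 1) → ℤ × ℤ) (ω : Fin (n + 1) → ℤ × ℤ)
    (σ : Fin (n + 1) → Fin (l + 1)) : Prop :=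
  σ 0 = 0 ∧ (∀ k : Fin n, (σ k.succ : ℕ) = σ k.castSucc ∨ (σ k.succ : ℕ) = σ k.castSucc + 1) ∧
  ∀ k, |(ω k).1 - Y * (P (σ k)).1| + |(ω k).2 - Y * (P (σ k)).2| ≤ 2 * Y

/-- the walks `ω e` form a network which follows the drawing `x`, `P` enlarged by the factor `Y`;
the edges which are not full may stop too early -/
def Picture {V E : Type} (src tgt : E → V) (n : ℕ) (l N : E → ℕ) (Y : ℤ) (x : V → ℤ × ℤ)
    (P : ∀ e, Fin (l e + 1) → ℤ × ℤ) (ω : ∀ e, Fin (N e + 1) → ℤ × ℤ) : Prop :=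
  (∃ x', Network src tgt N x' ω ∧
    ∀ v, (∀ e, tgt e = v → Full n (l e) (N e)) → x' v = (Y * (x v).1, Y * (x v).2)) ∧
  ∀ e, ∃ σ, Follows Y (P e) (ω e) σ ∧
    (Full n (l e) (N e) → σ (Fin.last (N e)) = Fin.last (l e))

theorem network_iff {V E : Type} {src tgt : E → V} {n : E → ℕ} {x : V → ℤ × ℤ}
    {ω : ∀ e, Fin (n e + 1) → ℤ × ℤ} :
    Network src tgt n x ω ↔ Pool.Agent.N941.NW.Net src tgt n x ω := by
  constructor
  · rintro ⟨h1, h2, h3, h4⟩
    exact ⟨h1, h2, fun e e' i j hne h => (h3 e e' i j hne h).1, h4⟩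
  · rintro ⟨h1, h2, h3, h4⟩
    exact ⟨h1, h2, fun e e' i j hne h => ⟨h3 e e' i j hne h, h3 e' e j i hne.symm h.symm⟩, h4⟩

/-- **Theorem.** There is a constant `K` such that for every finite multigraph `(V, E)` without
isolated vertices and every drawing of it on `ℤ²` (vertices at `x v`, edges drawn as self-avoiding
lattice paths `P e` with `l e ≥ 1` steps, forming a network), with `L = ∑ l e`: for all `A ≥ 1`,
`n ≥ K A L²` and all lengths `1 ≤ N e ≤ A n` such that every edge is pendant or full, there is `Y`,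
at least the mean diameter of the `n`-step walks divided by `K L`, such that independent uniform
self-avoiding walks with `N e` steps form a network which follows the drawing enlarged by the factor
`Y` with probability at least `exp (- K A² L³ (log n)³)`. -/
theorem result : ∃ K : ℝ, 0 < K ∧ ∀ (V E : Type) [Fintype E] [Nonempty E] (src tgt : E → V),
    (∀ v, ∃ e, v = src e ∨ v = tgt e) →
    ∀ (l : E → ℕ) (x : V → ℤ × ℤ) (P : ∀ e, Fin (l e + 1) → ℤ × ℤ), (∀ e, 1 ≤ l e) →
    (∀ e, IsSAW (l e) (P e)) → Network src tgt l x P →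
    ∀ A n : ℕ, 1 ≤ A → K * A * (∑ e, (l e : ℝ)) ^ 2 ≤ n →
    ∀ N : E → ℕ, (∀ e, 1 ≤ N e ∧ N e ≤ A * n) → (∀ e, Pendant src tgt e ∨ Full n (l e) (N e)) →
    ∃ Y : ℤ, 1 ≤ Y ∧ meanDiam n ≤ K * (∑ e, (l e : ℝ)) * Y ∧
      Real.exp (-(K * A ^ 2 * (∑ e, (l e : ℝ)) ^ 3 * Real.log n ^ 3)) ≤
        prob N (Picture src tgt n l N Y x P) := by
  obtain ⟨K, hK, h⟩ := Pool.Agent.N941.NW.main
  refine ⟨K, hK, ?_⟩
  intro V E _ _ src tgt hcov l x P hl hP hx A n hA hn N hN1 hN2
  obtain ⟨Y, hY, hYm, hY2⟩ := h V E src tgt l hcov hl x P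
    (fun e => (Pool.Agent.N941.SP.saw_iff_walks _ _).1 (hP e)) (network_iff.1 hx) A n hA hn N hN1 hN2
  refine ⟨Y, hY, hYm, ?_⟩
  have hcard : ∀ k, {w | IsSAW k w}.ncard = Pool.Agent.H122R3.SX.c k := fun k =>
    Pool.Agent.N223.WB.card_eq k
  have hpos : 0 < ∏ e, ({w | IsSAW (N e) w}.ncard : ℝ) :=
    Finset.prod_pos fun e _ => Pool.Agent.N223.WB.card_pos' (N e)
  unfold prob
  rw [le_div_iff₀ hpos]
  simp only [hcard]
  refine hY2.trans ?_
  have hfin : {ω : ∀ e, Fin (N e + 1) → ℤ × ℤ | (∀ e, IsSAW (N e) (ω e)) ∧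
      Picture src tgt n l N Y x P ω}.Finite := by
    refine (Pool.Agent.N941.NW.pi_walks_finite N).subset fun ω hω e => ?_
    exact (Pool.Agent.N941.SP.saw_iff_walks _ _).1 (hω.1 e)
  have hsub : Pool.Agent.N941.NW.gnets src tgt (fun e => n ≤ N e ∧ N e % 2 = l e % 2) N Y
      (2 * Y) x P ⊆
      {ω : ∀ e, Fin (N e + 1) → ℤ × ℤ | (∀ e, IsSAW (N e) (ω e)) ∧
        Picture src tgt n l N Y x P ω} := by
    rintro ω ⟨h1, ⟨x', h2, h3⟩, h4⟩
    refine ⟨fun e => (Pool.Agent.N941.SP.saw_iff_walks _ _).2 (h1 e),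
      ⟨x', network_iff.2 h2, h3⟩, fun e => ?_⟩
    obtain ⟨σ, h5, h6⟩ := h4 e
    refine ⟨σ, ⟨h6.zero, fun k => ?_, h6.near⟩, h5⟩
    have h7 := h6.step k.castSucc k.succ (by simp)
    have h8 : (σ k.castSucc : ℕ) ≤ σ k.succ := h6.mono (Fin.castSucc_lt_succ).le
    omega
  exact_mod_cast Set.ncard_le_ncard hsub hfin

end Pool.Agent.Results.MP_8c6f77_pr.Networks
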