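import Pool.Agent.N932.FL.Pair

/-!
# Two self-avoiding walks which do not meet forget each other

`w'` uniform on a set `T` of `m`-step self-avoiding walks from `0` (all of them, or a single one)
and `w` uniform on the `n`-step self-avoiding walks from `0`, on the square, the triangular and the
hexagonal grid, conditioned on `w{1,…,n} ∩ w'{0,…,m} = ∅`.  The law of the next `l` steps of `w`
given the whole of `w'` and `w` up to time `t` is compared with the law of the next `l` steps of a
uniform walk with `n - a` steps which begins with the piece `w[a, t]`: the walk `w'` and the first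
`a` steps of `w` are erased.
-/

set_option autoImplicit false

namespace Pool.Agent.Results.MP_8c6f77_pr.QuenchedPair

open scoped Classical

/-- the three grids -/
inductive Grid
  | square
  | triangular
  | hexagonal

/-- Adjacency of the grids, in coordinates on `ℤ × ℤ` (brick wall for the hexagonal grid). -/
def Grid.Adj : Grid → ℤ × ℤ → ℤ × ℤ → Prop
  | .square, p, q => |p.1 - q.1| + |p.2 - q.2| = 1
  | .triangular, p, q =>
    q - p ∈ ({(1, 0), (-1, 0), (0, 1), (0, -1), (1, -1), (-1, 1)} : Set (ℤ × ℤ))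
  | .hexagonal, p, q => q - p = (1, 0) ∨ q - p = (-1, 0) ∨ (q - p = (0, 1) ∧ Even (p.1 + p.2)) ∨
    (q - p = (0, -1) ∧ Even (q.1 + q.2))

/-- The sign of a vertex: `x ↦ sgn v • (x - v)` is an automorphism of the grid which maps `v` to
the origin (a translation, or, for the odd vertices of the hexagonal grid, a rotation by `π`). -/
def Grid.sgn : Grid → ℤ × ℤ → ℤ
  | .square, _ => 1
  | .triangular, _ => 1
  | .hexagonal, v => if Even (v.1 + v.2) then 1 else -1

/-- the `n`-step self-avoiding walks from the origin -/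
def walks (G : Grid) (n : ℕ) : Set (Fin (n + 1) → ℤ × ℤ) :=
  {ω | ω 0 = 0 ∧ Function.Injective ω ∧ ∀ i : Fin n, G.Adj (ω i.castSucc) (ω i.succ)}

/-- the `n`-step self-avoiding walks `w` from the origin with `w{1,…,n} ∩ w'{0,…,m} = ∅` -/
def avoid (G : Grid) {m : ℕ} (n : ℕ) (w' : Fin (m + 1) → ℤ × ℤ) : Set (Fin (n + 1) → ℤ × ℤ) :=
  {w ∈ walks G n | ∀ (i : Fin (m + 1)) (j : Fin (n + 1)), 1 ≤ j.1 → w j ≠ w' i}

/-- the pairs `(w', w)` with `w' ∈ T` and `w{1,…,n} ∩ w'{0,…,m} = ∅` -/
def pairs (G : Grid) {m : ℕ} (n : ℕ) (T : Set (Fin (m + 1) → ℤ × ℤ)) :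
    Set ((Fin (m + 1) → ℤ × ℤ) × (Fin (n + 1) → ℤ × ℤ)) :=
  {p | p.1 ∈ T ∧ p.2 ∈ avoid G n p.1}

/-- The probability that `w{1,…,n} ∩ w'{0,…,m} = ∅`, for independent `w'` uniform on `T` and `w`
uniform on the `n`-step walks. -/
noncomputable def P (G : Grid) {m : ℕ} (n : ℕ) (T : Set (Fin (m + 1) → ℤ × ℤ)) : ℝ :=
  (pairs G n T).ncard / (T.ncard * (walks G n).ncard)

/-- The mean under the uniform probability measure on the finite set `S`. -/
noncomputable def mean {ι : Type} (S : Set ι) (f : ι → ℝ) : ℝ :=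
  (∑ᶠ p ∈ S, f p) / S.ncard

/-- The probability of `B` under the uniform probability measure on the finite set `S`. -/
noncomputable def prob {ι : Type} (S B : Set ι) : ℝ :=
  mean S (fun p => if p ∈ B then 1 else 0)

/-- The piece with `m` steps which starts at time `i`, moved to the origin:
`k ↦ sgn (ω i) • (ω(i + k) - ω(i))`. (It is only used for `i + m ≤ n`, when the minima play no
role.) -/
def piece (G : Grid) {n : ℕ} (i m : ℕ) (ω : Fin (n + 1) → ℤ × ℤ) : Fin (m + 1) → ℤ × ℤ :=
  fun k => G.sgn (ω ⟨min i n, by omega⟩) •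
    (ω ⟨min (i + k.1) n, by omega⟩ - ω ⟨min i n, by omega⟩)

/-- For a uniform element of the set `A` of walks, the conditional probability that the `l` steps
after time `i` are `ζ`, given that the first `i` steps are `u`. -/
noncomputable def cont (G : Grid) {N : ℕ} (A : Set (Fin (N + 1) → ℤ × ℤ)) (i l : ℕ)
    (u : Fin (i + 1) → ℤ × ℤ) (ζ : Fin (l + 1) → ℤ × ℤ) : ℝ :=
  (({η ∈ A | piece G 0 i η = u ∧ piece G i l η = ζ}).ncard : ℝ) /
    (({η ∈ A | piece G 0 i η = u}).ncard : ℝ)

/-- The growth law of `w` in the environment `w'`: the law of the `l` steps of `w` after time `t`,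
given the whole of `w'` and the walk `w` up to time `t`, for `p = (w', w)`. -/
noncomputable def growth (G : Grid) {m n : ℕ} (t l : ℕ)
    (p : (Fin (m + 1) → ℤ × ℤ) × (Fin (n + 1) → ℤ × ℤ)) (ζ : Fin (l + 1) → ℤ × ℤ) : ℝ :=
  cont G (avoid G n p.1) t l (piece G 0 t p.2) ζ

/-- The free growth law: the law of the `l` steps after time `t - a` of the uniform walk with
`n - a` steps which begins with the piece of `w` between the times `a` and `t`. -/
noncomputable def free (G : Grid) {n : ℕ} (a t l : ℕ)
    (ω : Fin (n + 1) → ℤ × ℤ) (ζ : Fin (l + 1) → ℤ × ℤ) : ℝ :=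
  cont G (walks G (n - a)) (t - a) l (piece G a (t - a) ω) ζ

/-- The relative entropy of the growth law with respect to the free growth law. -/
noncomputable def KL (G : Grid) {m n : ℕ} (a t l : ℕ)
    (p : (Fin (m + 1) → ℤ × ℤ) × (Fin (n + 1) → ℤ × ℤ)) : ℝ :=
  ∑ᶠ ζ ∈ walks G l, growth G t l p ζ * Real.log (growth G t l p ζ / free G a t l p.2 ζ)

/-- The total variation distance of the same two laws. -/
noncomputable def TV (G : Grid) {m n : ℕ} (a t l : ℕ)
    (p : (Fin (m + 1) → ℤ × ℤ) × (Fin (n + 1) → ℤ × ℤ)) : ℝ :=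
  1 / 2 * ∑ᶠ ζ ∈ walks G l, |growth G t l p ζ - free G a t l p.2 ζ|

/-- The influence of `w'` and of the first `a` steps of `w` on the growth of `w` is small, for a
uniform element `(w', w)` of the set `S` of pairs. -/
def Forgets (G : Grid) (K E : ℝ) {m n : ℕ}
    (S : Set ((Fin (m + 1) → ℤ × ℤ) × (Fin (n + 1) → ℤ × ℤ))) : Prop :=
  (∀ (a r : ℕ) (τ : ℕ → ℕ), Monotone τ → τ 0 = a → τ r ≤ n →
    mean S (fun p => ∑ j ∈ Finset.range r, KL G a (τ j) (τ (j + 1) - τ j) p) ≤
      K * Real.log (((min a (n - a) : ℕ) : ℝ) + 1) ^ 2 + E ∧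
    mean S (fun p => Real.exp (1 / 4 * ∑ j ∈ Finset.range r,
        TV G a (τ j) (τ (j + 1) - τ j) p ^ 2)) ≤
      Real.exp (1 / 4 * (K * Real.log (((min a (n - a) : ℕ) : ℝ) + 1) ^ 2 + E))) ∧
  ∀ x : ℝ, 0 ≤ x →
    prob S {p | ¬ ∀ a l : ℕ, 1 ≤ l → a + l ≤ n →
      ∑ t ∈ Finset.Icc a (n - l), TV G a t l p ^ 2 ≤
        K * l * (Real.log n ^ 2 + E + x)} ≤ Real.exp (-x)

open Pool.Agent.N932.FL in
theorem final_of (G : Grid) (L : Lat (ℤ × ℤ)) (hsy : ∀ x y, L.Adj x y → L.Adj y x) {B : ℝ}
    (hB : L.Quasi B) (hw : ∀ n, walks G n = L.walks n) (hs : G.sgn = L.s) :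
    ∃ K : ℝ, 0 < K ∧ ∀ m n : ℕ, 2 ≤ n →
      Real.exp (-(K * Real.log (((min m n : ℕ) : ℝ) + 1) ^ 2)) ≤ P G n (walks G m) ∧
      (∀ x : ℝ, prob (pairs G n (walks G m))
        {p | P G n {p.1} < Real.exp (-x) * P G n (walks G m)} ≤ Real.exp (-x)) ∧
      ∀ T : Set (Fin (m + 1) → ℤ × ℤ), T ⊆ walks G m → (pairs G n T).Nonempty →
        Forgets G K (Real.log (1 / P G n T)) (pairs G n T) := by
  have hp : ∀ {n : ℕ} (i m : ℕ) (ω : Fin (n + 1) → ℤ × ℤ), piece G i m ω = L.piece i m ω := by
    intro n i m ω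
    funext k
    unfold piece Lat.piece
    rw [hs]
  have hc : ∀ {N : ℕ} (A : Set (Fin (N + 1) → ℤ × ℤ)) (i m : ℕ) (u : Fin (i + 1) → ℤ × ℤ)
      (ζ : Fin (m + 1) → ℤ × ℤ), cont G A i m u ζ = L.cont A i m u ζ := by
    intro N A i m u ζ
    unfold cont Lat.cont
    simp only [hp]
  have hav : ∀ (m n : ℕ) (w' : Fin (m + 1) → ℤ × ℤ), avoid G n w' = L.av n w' := by
    intro m n w'
    unfold avoid Lat.av
    rw [hw]
  have hpr : ∀ (m n : ℕ) (T : Set (Fin (m + 1) → ℤ × ℤ)),
      pairs G n T = prs T (fun w' => L.av n w') := by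
    intro m n T
    unfold pairs prs
    simp only [hav]
  have hKL : ∀ (m n a t l : ℕ) (p : (Fin (m + 1) → ℤ × ℤ) × (Fin (n + 1) → ℤ × ℤ)),
      KL G a t l p = L.KLf (L.av n p.1) a t l p.2 := by
    intro m n a t l p
    unfold KL Lat.KLf growth Lat.growth free Lat.free
    simp only [hp, hc, hw, hav]
  have hTV : ∀ (m n a t l : ℕ) (p : (Fin (m + 1) → ℤ × ℤ) × (Fin (n + 1) → ℤ × ℤ)),
      TV G a t l p = L.TVf (L.av n p.1) a t l p.2 := by
    intro m n a t l p
    unfold TV Lat.TVf growth Lat.growth free Lat.free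
    simp only [hp, hc, hw, hav]
  have hB0 := hB.1
  refine ⟨4 * B + 24, by linarith, fun m n hn => ?_⟩
  have hcn : (0 : ℝ) < (walks G n).ncard := by rw [hw]; exact L.card0 n
  have hcm : (0 : ℝ) < (walks G m).ncard := by rw [hw]; exact L.card0 m
  have hfm : (walks G m).Finite := by rw [hw]; exact L.finite m
  have hsub : ∀ w' : Fin (m + 1) → ℤ × ℤ, L.av n w' ⊆ L.walks n := fun w' w h => h.1
  have hlow := L.pair_lower hsy hB m n
  have hne : (prs (L.walks m) (fun w' => L.av n w')).Nonempty := by
    have h2 : (0 : ℝ) < (prs (L.walks m) (fun w' => L.av n w')).ncard := by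
      refine lt_of_lt_of_le ?_ hlow
      have := L.card0 m
      have := L.card0 n
      positivity
    have h3 : 0 < (prs (L.walks m) (fun w' => L.av n w')).ncard := by exact_mod_cast h2
    exact (Set.ncard_pos (card_prs_le L (L.finite m) (fun z _ => hsub z)).1).1 h3
  have hP1 : ∀ p : (Fin (m + 1) → ℤ × ℤ), P G n {p} = ((L.av n p).ncard : ℝ) /
      (walks G n).ncard := by
    intro p
    unfold P
    rw [hpr, Set.ncard_singleton, Nat.cast_one, one_mul]
    congr 2
    have : prs {p} (fun w' => L.av n w') = (fun w => (p, w)) '' (L.av n p) := by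
      ext q
      constructor
      · rintro ⟨h1, h2⟩
        have h1' : q.1 = p := h1
        refine ⟨q.2, ?_, ?_⟩
        · rw [← h1']; exact h2
        · rw [← h1']
      · rintro ⟨w, hw1, rfl⟩
        exact ⟨rfl, hw1⟩
    rw [this]
    exact Set.ncard_image_of_injective _ (fun w w' h => (Prod.mk.inj h).2)
  refine ⟨?_, fun x => ?_, fun T hT hTne => ?_⟩
  · unfold P
    rw [le_div_iff₀ (by positivity), hpr, hw, hw]
    refine le_trans ?_ hlow
    refine mul_le_mul_of_nonneg_right (Real.exp_le_exp.2 (neg_le_neg ?_)) (by positivity)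
    rw [min_comm n m]
    exact mul_le_mul_of_nonneg_right (by linarith) (sq_nonneg _)
  · have h := (L.family (Z := Fin (m + 1) → ℤ × ℤ) (n := n) (L.finite m)
      (A' := fun w' => L.av n w') (fun z _ => hsub z) hne).2.2 x
    rw [hpr, hw]
    refine le_trans (le_of_eq ?_) h
    unfold prob sprob mean smean
    have hset : {p : (Fin (m + 1) → ℤ × ℤ) × (Fin (n + 1) → ℤ × ℤ) |
        P G n {p.1} < Real.exp (-x) * P G n (L.walks m)} =
        {p | ((L.av n p.1).ncard : ℝ) * (L.walks m).ncard <
          Real.exp (-x) * (prs (L.walks m) (fun w' => L.av n w')).ncard} := by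
      ext p
      rw [Set.mem_setOf_eq, Set.mem_setOf_eq, hP1]
      unfold P
      rw [hpr, hw]
      have h1 := L.card0 n
      have h2 := L.card0 m
      rw [mul_div_assoc', div_lt_div_iff₀ h1 (by positivity)]
      constructor
      · intro h3
        have h4 : ((L.av n p.1).ncard * ((L.walks m).ncard : ℝ)) * (L.walks n).ncard <
            (Real.exp (-x) * (prs (L.walks m) (fun w' => L.av n w')).ncard) *
              (L.walks n).ncard := by linarith
        exact lt_of_mul_lt_mul_right h4 h1.le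
      · intro h3
        have := mul_lt_mul_of_pos_right h3 h1
        linarith
    rw [hset]
  · have hTf : T.Finite := hfm.subset hT
    rw [hpr] at hTne ⊢
    have hTw : ∀ z ∈ T, L.av n z ⊆ L.walks n := fun z _ => hsub z
    obtain ⟨hpf, -⟩ := card_prs_le L hTf hTw
    have hpos : (0 : ℝ) < (prs T (fun w' => L.av n w')).ncard := by
      exact_mod_cast (Set.ncard_pos hpf).2 hTne
    have hT0 : (0 : ℝ) < T.ncard := by
      obtain ⟨p, hp1⟩ := hTne
      exact_mod_cast (Set.ncard_pos hTf).2 ⟨p.1, hp1.1⟩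
    have hP0 : 0 < P G n T := by
      unfold P
      rw [hpr]
      positivity
    have hD : Real.exp (-(Real.log (1 / P G n T))) * (T.ncard * (L.walks n).ncard) ≤
        (prs T (fun w' => L.av n w')).ncard := by
      rw [one_div, Real.log_inv, neg_neg, Real.exp_log hP0]
      unfold P
      rw [hpr, hw, div_mul_cancel₀]
      have := L.card0 n
      positivity
    obtain ⟨h1, h2⟩ := L.family_sq (n := n) hB hTf hTw hTne hD hn
    unfold Forgets
    simp only [hKL, hTV]
    refine ⟨fun a r τ hτ h0 hr => ?_, h2⟩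
    obtain ⟨h3, h4⟩ := h1 a r τ hτ h0 hr
    have h5 : B * Real.log (((min a (n - a) : ℕ) : ℝ) + 1) ^ 2 + Real.log (1 / P G n T) ≤
        (4 * B + 24) * Real.log (((min a (n - a) : ℕ) : ℝ) + 1) ^ 2 +
          Real.log (1 / P G n T) := by
      have := sq_nonneg (Real.log (((min a (n - a) : ℕ) : ℝ) + 1))
      nlinarith
    exact ⟨h3.trans h5, h4.trans (Real.exp_le_exp.2 (by linarith))⟩

open Pool.Agent.N932.FL in
/-- **Two self-avoiding walks which do not meet forget each other.** For each of the three grids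
there is `K` such that for all `m` and all `n ≥ 2`, with `P_T` the probability that
`w{1,…,n} ∩ w'{0,…,m} = ∅` for independent `w'` uniform on `T ⊆ Ω_m` and `w` uniform on `Ω_n`:
(1) `P_{Ω_m} ≥ exp (-K (log (min (m, n) + 1))²)`;
(2) under the law of the pair conditioned on non-intersection, the quenched probability `P_{w'}`
is smaller than `e^{-x} P_{Ω_m}` with probability at most `e^{-x}`;
(3) for every set `T` of `m`-step walks with `P_T > 0` (all of them, or a single one), under the
law of the pair conditioned on non-intersection, the growth of `w`, given all of `w'` and the past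
of `w`, is close to the free growth with `w'` and the first `a` steps of `w` erased: the relative
entropies over the blocks of any partition of `[a, n]` have a mean sum of at most
`K (log (min (a, n - a) + 1))² + log (1 / P_T)`, with the exponential moment of a quarter of the
sum of the squared total variation distances at most the exponential of a quarter of it, and, with
probability at least `1 - e^{-x}`, for all `a` and all window lengths `l` simultaneously the
squared total variation distances have sum at most `K l ((log n)² + log (1 / P_T) + x)`. -/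
theorem result : ∀ G : Grid, ∃ K : ℝ, 0 < K ∧ ∀ m n : ℕ, 2 ≤ n →
    Real.exp (-(K * Real.log (((min m n : ℕ) : ℝ) + 1) ^ 2)) ≤ P G n (walks G m) ∧
    (∀ x : ℝ, prob (pairs G n (walks G m))
      {p | P G n {p.1} < Real.exp (-x) * P G n (walks G m)} ≤ Real.exp (-x)) ∧
    ∀ T : Set (Fin (m + 1) → ℤ × ℤ), T ⊆ walks G m → (pairs G n T).Nonempty →
      Forgets G K (Real.log (1 / P G n T)) (pairs G n T) := by
  intro G
  cases G with
  | square =>
    obtain ⟨B, hB⟩ := quasi_sq
    exact final_of .square sqLat adjS_symm hB (fun _ => rfl) rfl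
  | triangular =>
    obtain ⟨B, hB⟩ := quasi_tri
    exact final_of .triangular triLat adjT_symm hB (fun _ => rfl) rfl
  | hexagonal =>
    obtain ⟨B, hB⟩ := quasi_hex
    exact final_of .hexagonal hexLat adjH_symm hB (fun _ => rfl) rfl

end Pool.Agent.Results.MP_8c6f77_pr.QuenchedPair
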